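import Mathlib

set_option autoImplicit false

open MeasureTheory Filter Topology Set
open scoped ENNReal

namespace Pool.Agent.Results.MP_e4fc02_an.NoEigenvector

section defs

variable {X : Type} [NormedAddCommGroup X] [NormedSpace ℝ X] [PartialOrder X]

/-- a substochastic (positive, contractive) `C₀`-semigroup on the ordered Banach space `X`;
below `X` is `L¹(ν)` -/
structure IsSubstochastic (S : ℝ → (X →L[ℝ] X)) : Prop where
  zero : S 0 = ContinuousLinearMap.id ℝ X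
  add : ∀ s t, 0 ≤ s → 0 ≤ t → S (s + t) = (S s).comp (S t)
  cont : ∀ φ, ContinuousOn (fun t => S t φ) (Ici 0)
  nonneg : ∀ t, 0 ≤ t → ∀ φ, 0 ≤ φ → 0 ≤ S t φ
  contr : ∀ t, 0 ≤ t → ‖S t‖ ≤ 1

/-- `A` is the generator of the semigroup `S` -/
def IsGenerator (S : ℝ → (X →L[ℝ] X)) (A : X →ₗ.[ℝ] X) : Prop :=
  ∀ φ ψ, (φ, ψ) ∈ A.graph ↔ Tendsto (fun t : ℝ => t⁻¹ • (S t φ - φ)) (𝓝[>] 0) (𝓝 ψ)

/-- `J` is the generator of the Kato-Voigt semigroup of `M` and `P`: the minimal substochastic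
semigroup whose generator extends `M + P` -/
def IsKatoVoigt (M P J : X →ₗ.[ℝ] X) : Prop :=
  ∃ S, IsSubstochastic S ∧ IsGenerator S J ∧ M + P ≤ J ∧
    ∀ S' J', IsSubstochastic S' → IsGenerator S' J' → M + P ≤ J' →
      ∀ t, 0 ≤ t → ∀ φ, 0 ≤ φ → S t φ ≤ S' t φ

/-- the standing assumptions on `M` and `P`; `I` is the integral -/
structure IsAdmissiblePair (I : X → ℝ) (M P : X →ₗ.[ℝ] X) : Prop where
  gen : ∃ S, IsSubstochastic S ∧ IsGenerator S M
  dom_le : M.domain ≤ P.domain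
  pos : ∀ φ ψ, (φ, ψ) ∈ P.graph → 0 ≤ φ → 0 ≤ ψ
  mass : ∀ φ ψ, (φ, ψ) ∈ (M + P).graph → 0 ≤ φ → I ψ ≤ 0

/-- honest but not genuinely honest -/
def IsHonestNotGenuinely (M P J : X →ₗ.[ℝ] X) : Prop :=
  (M + P).IsClosable ∧ J = (M + P).closure ∧ J.domain ≠ M.domain

/-- `v` is a nonzero, nonnegative element of the kernel of `J` -/
def IsNullVector (J : X →ₗ.[ℝ] X) (v : X) : Prop :=
  0 ≤ v ∧ v ≠ 0 ∧ (v, (0 : X)) ∈ J.graph

/-- `L` is the strong limit, as `l` tends to `0` from the right, of `P (l - M)⁻¹` -/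
def IsLimitOperator (M P : X →ₗ.[ℝ] X) (L : X →L[ℝ] X) : Prop :=
  ∀ u, ∃ w : ℝ → X,
    (∀ l, 0 < l → ∃ φ, (φ, l • φ - u) ∈ M.graph ∧ (φ, w l) ∈ P.graph) ∧
    Tendsto w (𝓝[>] 0) (𝓝 (L u))

/-- the negated form of the question on the space `X` with integral `I`, with the stronger
conclusion that `1` is not an eigenvalue of the limit operator at all -/
def NegatedForm (X : Type) [NormedAddCommGroup X] [NormedSpace ℝ X] [PartialOrder X]
    (I : X → ℝ) : Prop :=
  ∃ (M P J : X →ₗ.[ℝ] X) (L : X →L[ℝ] X) (v : X),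
    IsAdmissiblePair I M P ∧ IsKatoVoigt M P J ∧ IsHonestNotGenuinely M P J ∧
    IsNullVector J v ∧ v ∉ M.domain ∧ IsLimitOperator M P L ∧ ∀ u, u ≠ 0 → L u ≠ u

end defs

section aux

variable {Ξ : Type} [MeasurableSpace Ξ] {ν : Measure Ξ}

lemma tendsto_L1 {F : ℝ → Lp ℝ 1 ν} {G : Lp ℝ 1 ν} {f : ℝ → Ξ → ℝ} {g : Ξ → ℝ}
    {l : Filter ℝ} [l.IsCountablyGenerated] (bound : Ξ → ℝ)
    (hF : ∀ᶠ t in l, F t =ᵐ[ν] f t) (hG : G =ᵐ[ν] g)
    (hb : Integrable bound ν) (hfb : ∀ᶠ t in l, ∀ᵐ x ∂ν, ‖f t x - g x‖ ≤ bound x)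
    (hlim : ∀ᵐ x ∂ν, Tendsto (fun t => f t x) l (𝓝 (g x))) :
    Tendsto F l (𝓝 G) := by
  rw [tendsto_iff_norm_sub_tendsto_zero]
  have h3 : ∀ᶠ t in l, (fun x => (F t - G : Lp ℝ 1 ν) x) =ᵐ[ν] fun x => f t x - g x := by
    filter_upwards [hF] with t ht
    filter_upwards [Lp.coeFn_sub (F t) G, ht, hG] with x h1 h2 h3
    rw [h1, Pi.sub_apply, h2, h3]
  have h1 : ∀ᶠ t in l, ∫ x, ‖f t x - g x‖ ∂ν = ‖F t - G‖ := by
    filter_upwards [h3] with t ht
    rw [L1.norm_eq_integral_norm]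
    apply integral_congr_ae
    filter_upwards [ht] with x hx
    rw [hx]
  have h2 : Tendsto (fun t => ∫ x, ‖f t x - g x‖ ∂ν) l (𝓝 (∫ x, (0 : ℝ) ∂ν)) := by
    apply tendsto_integral_filter_of_dominated_convergence bound
    · filter_upwards [h3] with t ht
      exact (AEStronglyMeasurable.congr (Lp.aestronglyMeasurable (F t - G)) ht).norm
    · filter_upwards [hfb] with t htb
      filter_upwards [htb] with x hxb
      rw [norm_norm]
      exact hxb
    · exact hb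
    · filter_upwards [hlim] with x hx
      have := (hx.sub_const (g x)).norm
      simpa using this
  rw [integral_zero] at h2
  exact h2.congr' h1

lemma mul_int {m : Ξ → ℝ} (hm : Measurable m) (hb : ∀ x, |m x| ≤ 1) (φ : Lp ℝ 1 ν) :
    Integrable (fun x => m x * φ x) ν :=
  (L1.integrable_coeFn φ).bdd_mul (c := 1) hm.aestronglyMeasurable
    (Eventually.of_forall fun x => by rw [Real.norm_eq_abs]; exact hb x)

lemma norm_toL1 {f : Ξ → ℝ} (hf : Integrable f ν) :
    ‖Integrable.toL1 f hf‖ = ∫ x, ‖f x‖ ∂ν := by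
  rw [L1.norm_eq_integral_norm]
  apply integral_congr_ae
  filter_upwards [Integrable.coeFn_toL1 hf] with x hx
  rw [hx]

/-- multiplication by a measurable function bounded by one -/
noncomputable def mulOp (m : Ξ → ℝ) (hm : Measurable m) (hb : ∀ x, |m x| ≤ 1) :
    Lp ℝ 1 ν →L[ℝ] Lp ℝ 1 ν :=
  LinearMap.mkContinuous
    { toFun := fun φ => Integrable.toL1 (fun x => m x * φ x) (mul_int hm hb φ)
      map_add' := by
        intro φ ψ
        apply Lp.ext
        refine (Integrable.coeFn_toL1 _).trans ?_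
        filter_upwards [Lp.coeFn_add φ ψ, Lp.coeFn_add
          (Integrable.toL1 (fun x => m x * φ x) (mul_int hm hb φ))
          (Integrable.toL1 (fun x => m x * ψ x) (mul_int hm hb ψ)),
          Integrable.coeFn_toL1 (mul_int hm hb φ),
          Integrable.coeFn_toL1 (mul_int hm hb ψ)]
          with x h1 h2 h3 h4
        rw [h1, h2, Pi.add_apply, Pi.add_apply, h3, h4]
        ring
      map_smul' := by
        intro c φ
        apply Lp.ext
        refine (Integrable.coeFn_toL1 _).trans ?_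
        filter_upwards [Lp.coeFn_smul c φ, Lp.coeFn_smul c
          (Integrable.toL1 (fun x => m x * φ x) (mul_int hm hb φ)),
          Integrable.coeFn_toL1 (mul_int hm hb φ)]
          with x h1 h2 h3
        rw [h1, RingHom.id_apply, h2, Pi.smul_apply, Pi.smul_apply, h3, smul_eq_mul, smul_eq_mul]
        ring } 1 (by
      intro φ
      rw [one_mul]
      refine (norm_toL1 (mul_int hm hb φ)).le.trans ?_
      rw [L1.norm_eq_integral_norm φ]
      apply integral_mono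
      · exact (mul_int hm hb φ).norm
      · exact (L1.integrable_coeFn φ).norm
      · intro x
        show ‖m x * φ x‖ ≤ ‖φ x‖
        rw [norm_mul, Real.norm_eq_abs (m x)]
        exact mul_le_of_le_one_left (norm_nonneg _) (hb x))

lemma mulOp_ae (m : Ξ → ℝ) (hm : Measurable m) (hb : ∀ x, |m x| ≤ 1) (φ : Lp ℝ 1 ν) :
    mulOp m hm hb φ =ᵐ[ν] fun x => m x * φ x := Integrable.coeFn_toL1 (mul_int hm hb φ)

lemma mulOp_norm (m : Ξ → ℝ) (hm : Measurable m) (hb : ∀ x, |m x| ≤ 1) :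
    ‖(mulOp m hm hb : Lp ℝ 1 ν →L[ℝ] Lp ℝ 1 ν)‖ ≤ 1 :=
  LinearMap.mkContinuous_norm_le _ zero_le_one _

/-- the domain of the multiplication by `q` -/
def dom (ν : Measure Ξ) (q : Ξ → ℝ) : Submodule ℝ (Lp ℝ 1 ν) where
  carrier := {φ | Integrable (fun x => q x * φ x) ν}
  zero_mem' := by
    show Integrable (fun x => q x * (0 : Lp ℝ 1 ν) x) ν
    apply (integrable_zero Ξ ℝ ν).congr
    filter_upwards [Lp.coeFn_zero ℝ 1 ν] with x hx
    rw [hx]
    simp
  add_mem' := by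
    intro φ ψ hφ hψ
    show Integrable (fun x => q x * (φ + ψ : Lp ℝ 1 ν) x) ν
    apply (hφ.add hψ).congr
    filter_upwards [Lp.coeFn_add φ ψ] with x hx
    rw [hx, Pi.add_apply, Pi.add_apply]
    ring
  smul_mem' := by
    intro c φ hφ
    show Integrable (fun x => q x * (c • φ : Lp ℝ 1 ν) x) ν
    apply (hφ.const_mul c).congr
    filter_upwards [Lp.coeFn_smul c φ] with x hx
    rw [hx, Pi.smul_apply, smul_eq_mul]
    ring

lemma mem_dom {q : Ξ → ℝ} {φ : Lp ℝ 1 ν} :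
    φ ∈ dom ν q ↔ Integrable (fun x => q x * φ x) ν := Iff.rfl

/-- multiplication by `q` on its maximal domain -/
noncomputable def mulQ (q : Ξ → ℝ) : dom ν q →ₗ[ℝ] Lp ℝ 1 ν where
  toFun φ := Integrable.toL1 (fun x => q x * (φ : Lp ℝ 1 ν) x) φ.2
  map_add' := by
    intro φ ψ
    apply Lp.ext
    refine (Integrable.coeFn_toL1 _).trans ?_
    filter_upwards [Lp.coeFn_add (φ : Lp ℝ 1 ν) ψ, Lp.coeFn_add
      (Integrable.toL1 (fun x => q x * (φ : Lp ℝ 1 ν) x) φ.2)
      (Integrable.toL1 (fun x => q x * (ψ : Lp ℝ 1 ν) x) ψ.2),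
      Integrable.coeFn_toL1 φ.2, Integrable.coeFn_toL1 ψ.2] with x h1 h2 h3 h4
    rw [Submodule.coe_add, h1, h2, Pi.add_apply, Pi.add_apply, h3, h4]
    ring
  map_smul' := by
    intro c φ
    apply Lp.ext
    refine (Integrable.coeFn_toL1 _).trans ?_
    filter_upwards [Lp.coeFn_smul c (φ : Lp ℝ 1 ν), Lp.coeFn_smul c
      (Integrable.toL1 (fun x => q x * (φ : Lp ℝ 1 ν) x) φ.2),
      Integrable.coeFn_toL1 φ.2] with x h1 h2 h3
    rw [Submodule.coe_smul, h1, RingHom.id_apply, h2, Pi.smul_apply, Pi.smul_apply, h3,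
      smul_eq_mul, smul_eq_mul]
    ring

lemma mulQ_ae (q : Ξ → ℝ) (φ : dom ν q) :
    mulQ q φ =ᵐ[ν] fun x => q x * (φ : Lp ℝ 1 ν) x := Integrable.coeFn_toL1 φ.2

/-- `φ ↦ ∫ φ` as constant function -/
noncomputable def KK (ν : Measure Ξ) [IsProbabilityMeasure ν] : Lp ℝ 1 ν →L[ℝ] Lp ℝ 1 ν :=
  LinearMap.mkContinuous
    { toFun := fun φ => (∫ x, φ x ∂ν) • Integrable.toL1 (fun _ => (1 : ℝ)) (integrable_const _)
      map_add' := by
        intro φ ψ
        rw [← add_smul]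
        congr 1
        rw [← integral_add (L1.integrable_coeFn φ) (L1.integrable_coeFn ψ)]
        apply integral_congr_ae
        filter_upwards [Lp.coeFn_add φ ψ] with x hx
        rw [hx, Pi.add_apply]
      map_smul' := by
        intro c φ
        rw [RingHom.id_apply, smul_smul]
        congr 1
        rw [← integral_const_mul]
        apply integral_congr_ae
        filter_upwards [Lp.coeFn_smul c φ] with x hx
        rw [hx, Pi.smul_apply, smul_eq_mul] } 1 (by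
      intro φ
      show ‖(∫ x, φ x ∂ν) • Integrable.toL1 (fun _ => (1 : ℝ)) (integrable_const _)‖ ≤ 1 * ‖φ‖
      rw [norm_smul, norm_toL1, L1.norm_eq_integral_norm φ]
      simp only [norm_one, integral_const, probReal_univ, smul_eq_mul, mul_one, one_mul]
      exact norm_integral_le_integral_norm _)

noncomputable def one1 (ν : Measure Ξ) [IsProbabilityMeasure ν] : Lp ℝ 1 ν :=
  Integrable.toL1 (fun _ => (1 : ℝ)) (integrable_const _)

lemma one1_ae [IsProbabilityMeasure ν] : one1 ν =ᵐ[ν] fun _ => (1 : ℝ) :=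
  Integrable.coeFn_toL1 _

lemma KK_apply [IsProbabilityMeasure ν] (φ : Lp ℝ 1 ν) :
    KK ν φ = (∫ x, φ x ∂ν) • one1 ν := rfl

lemma KK_ae [IsProbabilityMeasure ν] (φ : Lp ℝ 1 ν) :
    KK ν φ =ᵐ[ν] fun _ => ∫ x, φ x ∂ν := by
  rw [KK_apply]
  filter_upwards [Lp.coeFn_smul (∫ x, φ x ∂ν) (one1 ν), one1_ae (ν := ν)] with x h1 h2
  rw [h1, Pi.smul_apply, h2, smul_eq_mul, mul_one]

lemma KK_KK [IsProbabilityMeasure ν] (φ : Lp ℝ 1 ν) : KK ν (KK ν φ) = KK ν φ := by
  rw [KK_apply (KK ν φ), KK_apply φ]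
  congr 1
  have : ∫ x, ((∫ x, φ x ∂ν) • one1 ν : Lp ℝ 1 ν) x ∂ν = ∫ _, (∫ x, φ x ∂ν) ∂ν :=
    integral_congr_ae (KK_ae φ)
  rw [this]
  simp


/-! ### the example -/

variable (q : Ξ → ℝ)

noncomputable def Mop (ν : Measure Ξ) : Lp ℝ 1 ν →ₗ.[ℝ] Lp ℝ 1 ν where
  domain := dom ν q
  toFun := -(mulQ q)

noncomputable def Pop (ν : Measure Ξ) [IsProbabilityMeasure ν] : Lp ℝ 1 ν →ₗ.[ℝ] Lp ℝ 1 ν where
  domain := dom ν q
  toFun := mulQ q + (KK ν - ContinuousLinearMap.id ℝ (Lp ℝ 1 ν)).toLinearMap.comp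
    (dom ν q).subtype

noncomputable def GG (ν : Measure Ξ) [IsProbabilityMeasure ν] : Lp ℝ 1 ν →L[ℝ] Lp ℝ 1 ν :=
  KK ν - ContinuousLinearMap.id ℝ (Lp ℝ 1 ν)

noncomputable def Jop (ν : Measure Ξ) [IsProbabilityMeasure ν] : Lp ℝ 1 ν →ₗ.[ℝ] Lp ℝ 1 ν :=
  (GG ν).toLinearMap.toPMap ⊤

lemma mem_J [IsProbabilityMeasure ν] (φ ψ : Lp ℝ 1 ν) :
    (φ, ψ) ∈ (Jop ν).graph ↔ ψ = GG ν φ := by
  rw [LinearPMap.mem_graph_iff]
  constructor
  · rintro ⟨y, h1, h2⟩
    change (y : Lp ℝ 1 ν) = φ at h1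
    change (Jop ν) y = ψ at h2
    rw [← h2, ← h1]
    rfl
  · intro h
    exact ⟨⟨φ, trivial⟩, rfl, h.symm⟩

lemma mem_M (φ ψ : Lp ℝ 1 ν) :
    (φ, ψ) ∈ (Mop q ν).graph ↔ ∃ h : φ ∈ dom ν q, ψ = -(mulQ q ⟨φ, h⟩) := by
  rw [LinearPMap.mem_graph_iff]
  constructor
  · rintro ⟨y, h1, h2⟩
    obtain ⟨y, hy⟩ := y
    change y = φ at h1
    subst h1
    exact ⟨hy, h2.symm⟩
  · rintro ⟨h, h'⟩
    exact ⟨⟨φ, h⟩, rfl, h'.symm⟩

lemma mem_P [IsProbabilityMeasure ν] (φ ψ : Lp ℝ 1 ν) :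
    (φ, ψ) ∈ (Pop q ν).graph ↔ ∃ h : φ ∈ dom ν q, ψ = mulQ q ⟨φ, h⟩ + (KK ν φ - φ) := by
  rw [LinearPMap.mem_graph_iff]
  constructor
  · rintro ⟨y, h1, h2⟩
    obtain ⟨y, hy⟩ := y
    change y = φ at h1
    subst h1
    exact ⟨hy, h2.symm⟩
  · rintro ⟨h, h'⟩
    exact ⟨⟨φ, h⟩, rfl, h'.symm⟩

lemma mem_MP [IsProbabilityMeasure ν] (φ ψ : Lp ℝ 1 ν) :
    (φ, ψ) ∈ (Mop q ν + Pop q ν).graph ↔ φ ∈ dom ν q ∧ ψ = GG ν φ := by
  rw [LinearPMap.mem_graph_iff]
  have key : ∀ y : (Mop q ν + Pop q ν).domain, (Mop q ν + Pop q ν) y = GG ν (y : Lp ℝ 1 ν) := by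
    rintro ⟨y, hy⟩
    rw [LinearPMap.add_apply]
    show -(mulQ q ⟨y, hy.1⟩) + (mulQ q ⟨y, hy.2⟩ + (KK ν y - y)) = KK ν y - y
    abel
  constructor
  · rintro ⟨y, h1, h2⟩
    rw [key y] at h2
    refine ⟨?_, ?_⟩
    · have := y.2.1
      change (y : Lp ℝ 1 ν) = φ at h1
      rw [h1] at this
      exact this
    · change (y : Lp ℝ 1 ν) = φ at h1
      rw [← h1]
      exact h2.symm
  · rintro ⟨h, h'⟩
    exact ⟨⟨φ, h, h⟩, rfl, (key _).trans h'.symm⟩

/-! multipliers -/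

variable {q}

lemma meas_ind (hq : Measurable q) (R : ℝ) : Measurable (fun x => if q x ≤ R then (1 : ℝ) else 0) :=
  Measurable.ite (measurableSet_le hq measurable_const) measurable_const measurable_const

omit [MeasurableSpace Ξ] in
lemma bd_ind (R : ℝ) (x : Ξ) : |(if q x ≤ R then (1 : ℝ) else 0)| ≤ 1 := by
  split_ifs <;> simp

/-- truncation -/
lemma trunc (hq : Measurable q) (hq1 : ∀ x, 1 ≤ q x) (φ : Lp ℝ 1 ν) :
    (∀ R, mulOp _ (meas_ind hq R) (bd_ind R) φ ∈ dom ν q) ∧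
    Tendsto (fun R => mulOp _ (meas_ind hq R) (bd_ind R) φ) atTop (𝓝 φ) := by
  constructor
  · intro R
    rw [mem_dom]
    have h1 : Integrable (fun x => (if q x ≤ R then q x else 0) * φ x) ν := by
      refine (L1.integrable_coeFn φ).bdd_mul (c := |R|) ?_ ?_
      · exact (Measurable.ite (measurableSet_le hq measurable_const) hq
          measurable_const).aestronglyMeasurable
      · refine Eventually.of_forall fun x => ?_
        split_ifs with h
        · rw [Real.norm_eq_abs, abs_of_nonneg (zero_le_one.trans (hq1 x))]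
          exact h.trans (le_abs_self R)
        · simp
    apply h1.congr
    filter_upwards [mulOp_ae _ (meas_ind hq R) (bd_ind R) φ] with x hx
    rw [hx]
    split_ifs <;> simp
  · apply tendsto_L1 (f := fun R x => (if q x ≤ R then (1 : ℝ) else 0) * φ x)
      (g := fun x => φ x) (bound := fun x => ‖φ x‖)
    · exact Eventually.of_forall fun R => mulOp_ae _ _ _ φ
    · exact EventuallyEq.rfl
    · exact (L1.integrable_coeFn φ).norm
    · refine Eventually.of_forall fun R => Eventually.of_forall fun x => ?_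
      split_ifs <;> simp
    · refine Eventually.of_forall fun x => ?_
      apply tendsto_const_nhds.congr'
      filter_upwards [eventually_ge_atTop (q x)] with R hR
      rw [if_pos hR, one_mul]

lemma MP_le_J [IsProbabilityMeasure ν] : Mop q ν + Pop q ν ≤ Jop ν := by
  apply LinearPMap.le_of_le_graph
  rintro ⟨φ, ψ⟩ h
  rw [mem_MP] at h
  rw [mem_J]
  exact h.2

lemma J_closed [IsProbabilityMeasure ν] : (Jop ν).IsClosed := by
  have h1 : ((Jop ν).graph : Set (Lp ℝ 1 ν × Lp ℝ 1 ν)) = {p | p.2 = GG ν p.1} := by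
    ext ⟨φ, ψ⟩
    exact mem_J φ ψ
  show IsClosed ((Jop ν).graph : Set (Lp ℝ 1 ν × Lp ℝ 1 ν))
  rw [h1]
  exact isClosed_eq continuous_snd ((GG ν).continuous.comp continuous_fst)

lemma MP_closable [IsProbabilityMeasure ν] : (Mop q ν + Pop q ν).IsClosable :=
  J_closed.isClosable.leIsClosable MP_le_J

lemma MP_closure [IsProbabilityMeasure ν] (hq : Measurable q) (hq1 : ∀ x, 1 ≤ q x) :
    (Mop q ν + Pop q ν).closure = Jop ν := by
  apply LinearPMap.eq_of_eq_graph
  rw [← MP_closable.graph_closure_eq_closure_graph]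
  apply le_antisymm
  · apply Submodule.topologicalClosure_minimal
    · exact LinearPMap.le_graph_of_le MP_le_J
    · exact J_closed
  · rintro ⟨φ, ψ⟩ h
    rw [mem_J] at h
    subst h
    obtain ⟨h1, h2⟩ := trunc (ν := ν) hq hq1 φ
    have h3 : Tendsto (fun R => (mulOp _ (meas_ind hq R) (bd_ind R) φ,
        GG ν (mulOp _ (meas_ind hq R) (bd_ind R) φ))) atTop (𝓝 (φ, GG ν φ)) :=
      h2.prodMk_nhds (((GG ν).continuous.tendsto φ).comp h2)
    apply mem_closure_of_tendsto h3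
    refine Eventually.of_forall fun R => ?_
    exact (mem_MP q _ _).2 ⟨h1 R, rfl⟩


/-! the semigroup generated by `M` -/

lemma meas_exp (hq : Measurable q) (t : ℝ) :
    Measurable (fun x => Real.exp (-(max t 0) * q x)) :=
  (measurable_const.mul hq).exp

omit [MeasurableSpace Ξ] in
lemma bd_exp (hq1 : ∀ x, 1 ≤ q x) (t : ℝ) (x : Ξ) : |Real.exp (-(max t 0) * q x)| ≤ 1 := by
  rw [abs_of_pos (Real.exp_pos _), Real.exp_le_one_iff]
  have h1 : 0 ≤ max t 0 := le_max_right _ _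
  have h2 := hq1 x
  nlinarith

noncomputable def SM (hq : Measurable q) (hq1 : ∀ x, 1 ≤ q x) (t : ℝ) :
    Lp ℝ 1 ν →L[ℝ] Lp ℝ 1 ν :=
  mulOp _ (meas_exp hq t) (bd_exp hq1 t)

lemma SM_ae (hq : Measurable q) (hq1 : ∀ x, 1 ≤ q x) (t : ℝ) (φ : Lp ℝ 1 ν) :
    SM hq hq1 t φ =ᵐ[ν] fun x => Real.exp (-(max t 0) * q x) * φ x := mulOp_ae _ _ _ φ

lemma SM_sub (hq : Measurable q) (hq1 : ∀ x, 1 ≤ q x) : IsSubstochastic (SM (ν := ν) hq hq1) where
  zero := by
    ext1 φ
    apply Lp.ext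
    filter_upwards [SM_ae hq hq1 0 φ] with x hx
    rw [hx]
    simp
  add := by
    intro s t hs ht
    ext1 φ
    apply Lp.ext
    filter_upwards [SM_ae hq hq1 (s + t) φ, SM_ae hq hq1 s (SM hq hq1 t φ), SM_ae hq hq1 t φ]
      with x h1 h2 h3
    rw [h1, ContinuousLinearMap.comp_apply, h2, h3, max_eq_left hs, max_eq_left ht,
      max_eq_left (add_nonneg hs ht), ← mul_assoc, ← Real.exp_add]
    congr 2
    ring
  cont := by
    intro φ
    apply Continuous.continuousOn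
    rw [continuous_iff_continuousAt]
    intro t
    apply tendsto_L1 (f := fun t x => Real.exp (-(max t 0) * q x) * φ x)
      (g := fun x => Real.exp (-(max t 0) * q x) * φ x) (bound := fun x => 2 * ‖φ x‖)
    · exact Eventually.of_forall fun R => SM_ae _ _ _ φ
    · exact SM_ae _ _ _ φ
    · exact (L1.integrable_coeFn φ).norm.const_mul 2
    · refine Eventually.of_forall fun R => Eventually.of_forall fun x => ?_
      rw [← sub_mul, norm_mul]
      apply mul_le_mul_of_nonneg_right _ (norm_nonneg _)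
      have h1 := bd_exp hq1 R x
      have h2 := bd_exp hq1 t x
      rw [Real.norm_eq_abs]
      have h3 := abs_sub (Real.exp (-(max R 0) * q x)) (Real.exp (-(max t 0) * q x))
      linarith
    · refine Eventually.of_forall fun x => ?_
      apply Tendsto.mul_const
      exact ((by fun_prop : Continuous fun t : ℝ => Real.exp (-(max t 0) * q x))).tendsto t
  nonneg := by
    intro t _ φ hφ
    rw [← Lp.coeFn_nonneg] at hφ ⊢
    filter_upwards [hφ, SM_ae hq hq1 t φ] with x h1 h2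
    rw [h2]
    exact mul_nonneg (Real.exp_pos _).le h1
  contr := by
    intro t _
    exact mulOp_norm _ _ _

lemma SM_gen (hq : Measurable q) (hq1 : ∀ x, 1 ≤ q x) :
    IsGenerator (SM (ν := ν) hq hq1) (Mop q ν) := by
  have hpt : ∀ (φ : Lp ℝ 1 ν) (t : ℝ), 0 < t →
      (t⁻¹ • (SM hq hq1 t φ - φ) : Lp ℝ 1 ν) =ᵐ[ν]
        fun x => t⁻¹ * (Real.exp (-t * q x) - 1) * φ x := by
    intro φ t ht
    filter_upwards [Lp.coeFn_smul t⁻¹ (SM hq hq1 t φ - φ), Lp.coeFn_sub (SM hq hq1 t φ) φ,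
      SM_ae hq hq1 t φ] with x h1 h2 h3
    rw [h1, Pi.smul_apply, h2, Pi.sub_apply, h3, max_eq_left ht.le, smul_eq_mul]
    ring
  have hlim : ∀ (c : ℝ), Tendsto (fun t : ℝ => t⁻¹ * (Real.exp (-t * c) - 1)) (𝓝[>] 0)
      (𝓝 (-c)) := by
    intro c
    have h1 : HasDerivAt (fun t : ℝ => Real.exp (-t * c)) (-c) 0 := by
      have := (((hasDerivAt_id (0 : ℝ)).neg).mul_const c).exp
      simpa using this
    have h2 := h1.hasDerivWithinAt (s := Ioi (0 : ℝ))
    rw [hasDerivWithinAt_iff_tendsto_slope' (by simp)] at h2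
    refine h2.congr fun t => ?_
    rw [slope_def_field]
    simp
    ring
  intro φ ψ
  rw [mem_M]
  constructor
  · rintro ⟨h, rfl⟩
    apply tendsto_L1 (f := fun t x => t⁻¹ * (Real.exp (-t * q x) - 1) * φ x)
      (g := fun x => -(q x) * φ x) (bound := fun x => 2 * ‖q x * φ x‖)
    · filter_upwards [self_mem_nhdsWithin] with t ht
      exact hpt φ t ht
    · filter_upwards [mulQ_ae q ⟨φ, h⟩, Lp.coeFn_neg (mulQ q ⟨φ, h⟩)] with x h1 h2
      rw [h2, Pi.neg_apply, h1]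
      ring
    · exact (mem_dom.1 h).norm.const_mul 2
    · filter_upwards [self_mem_nhdsWithin] with t ht
      have ht' : (0 : ℝ) < t := ht
      refine Eventually.of_forall fun x => ?_
      rw [← sub_mul, norm_mul, norm_mul, ← mul_assoc]
      apply mul_le_mul_of_nonneg_right _ (norm_nonneg _)
      have hqx : 0 < q x := lt_of_lt_of_le one_pos (hq1 x)
      have h1 : |t⁻¹ * (Real.exp (-t * q x) - 1)| ≤ q x := by
        rw [abs_mul, abs_of_pos (inv_pos.2 ht'), abs_of_nonpos, inv_mul_le_iff₀ ht']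
        · have := Real.add_one_le_exp (-t * q x)
          linarith
        · rw [sub_nonpos, Real.exp_le_one_iff]
          nlinarith
      rw [Real.norm_eq_abs, Real.norm_eq_abs, abs_of_pos hqx]
      calc |t⁻¹ * (Real.exp (-t * q x) - 1) - -(q x)| ≤ |t⁻¹ * (Real.exp (-t * q x) - 1)|
            + |-(q x)| := abs_sub _ _
        _ ≤ _ := by rw [abs_neg, abs_of_pos hqx]; linarith
    · refine Eventually.of_forall fun x => ?_
      exact (hlim (q x)).mul_const _
  · intro h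
    -- along a sequence, almost everywhere
    let tn : ℕ → ℝ := fun n => 1 / ((n : ℝ) + 1)
    have htn : ∀ n, 0 < tn n := fun n => by positivity
    have htn0 : Tendsto tn atTop (𝓝[>] 0) := by
      rw [tendsto_nhdsWithin_iff]
      exact ⟨tendsto_one_div_add_atTop_nhds_zero_nat, Eventually.of_forall fun n => htn n⟩
    have h1 : Tendsto (fun n => (tn n)⁻¹ • (SM hq hq1 (tn n) φ - φ)) atTop (𝓝 ψ) :=
      h.comp htn0
    have h2 := tendstoInMeasure_of_tendsto_Lp h1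
    obtain ⟨ns, hns, h3⟩ := h2.exists_seq_tendsto_ae
    have h4 : ∀ᵐ x ∂ν, ∀ n, ((tn n)⁻¹ • (SM hq hq1 (tn n) φ - φ) : Lp ℝ 1 ν) x =
        (tn n)⁻¹ * (Real.exp (-(tn n) * q x) - 1) * φ x := by
      rw [ae_all_iff]
      intro n
      exact hpt φ (tn n) (htn n)
    have h5 : ψ =ᵐ[ν] fun x => -(q x) * φ x := by
      filter_upwards [h3, h4] with x h3 h4
      have h6 : Tendsto (fun k => (tn (ns k))⁻¹ * (Real.exp (-(tn (ns k)) * q x) - 1) * φ x)
          atTop (𝓝 (-(q x) * φ x)) :=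
        ((hlim (q x)).comp (htn0.comp hns.tendsto_atTop)).mul_const _
      refine tendsto_nhds_unique h3 (h6.congr fun k => ?_)
      exact (h4 _).symm
    have h6 : Integrable (fun x => q x * φ x) ν := by
      apply ((L1.integrable_coeFn ψ).neg).congr
      filter_upwards [h5] with x hx
      rw [Pi.neg_apply, hx]
      ring
    refine ⟨h6, ?_⟩
    apply Lp.ext
    filter_upwards [h5, mulQ_ae q ⟨φ, h6⟩, Lp.coeFn_neg (mulQ q ⟨φ, h6⟩)] with x h1 h2 h3
    rw [h1, h3, Pi.neg_apply, h2]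
    ring


/-! the Kato-Voigt semigroup -/

noncomputable def SJ (ν : Measure Ξ) [IsProbabilityMeasure ν] (t : ℝ) :
    Lp ℝ 1 ν →L[ℝ] Lp ℝ 1 ν :=
  Real.exp (-t) • ContinuousLinearMap.id ℝ (Lp ℝ 1 ν) + (1 - Real.exp (-t)) • KK ν

lemma SJ_apply [IsProbabilityMeasure ν] (t : ℝ) (φ : Lp ℝ 1 ν) :
    SJ ν t φ = Real.exp (-t) • φ + (1 - Real.exp (-t)) • KK ν φ := rfl

lemma KK_norm [IsProbabilityMeasure ν] : ‖KK ν‖ ≤ 1 :=
  LinearMap.mkContinuous_norm_le _ zero_le_one _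

lemma KK_nonneg [IsProbabilityMeasure ν] (φ : Lp ℝ 1 ν) (hφ : 0 ≤ φ) : 0 ≤ KK ν φ := by
  rw [← Lp.coeFn_nonneg] at hφ ⊢
  filter_upwards [KK_ae φ] with x hx
  rw [hx]
  exact integral_nonneg_of_ae hφ

lemma smul_nonneg' {c : ℝ} (hc : 0 ≤ c) {φ : Lp ℝ 1 ν} (hφ : 0 ≤ φ) : 0 ≤ c • φ := by
  rw [← Lp.coeFn_nonneg] at hφ ⊢
  filter_upwards [hφ, Lp.coeFn_smul c φ] with x h1 h2
  rw [h2, Pi.smul_apply, smul_eq_mul]
  exact mul_nonneg hc h1

lemma SJ_sub [IsProbabilityMeasure ν] : IsSubstochastic (SJ ν) where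
  zero := by
    ext1 φ
    rw [SJ_apply]
    simp
  add := by
    intro s t _ _
    ext1 φ
    rw [ContinuousLinearMap.comp_apply, SJ_apply, SJ_apply, SJ_apply, map_add, map_smul, map_smul,
      KK_KK, smul_add, smul_add, smul_smul, smul_smul, smul_smul, smul_smul, ← Real.exp_add,
      add_assoc, ← add_smul, ← add_smul]
    congr 2
    · congr 1; ring
    · rw [neg_add, Real.exp_add]; ring
  cont := by
    intro φ
    apply Continuous.continuousOn
    simp_rw [SJ_apply]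
    fun_prop
  nonneg := by
    intro t ht φ hφ
    rw [SJ_apply]
    refine add_nonneg (smul_nonneg' (Real.exp_pos _).le hφ) (smul_nonneg' ?_ (KK_nonneg φ hφ))
    rw [sub_nonneg, Real.exp_le_one_iff]
    linarith
  contr := by
    intro t ht
    apply ContinuousLinearMap.opNorm_le_bound _ zero_le_one
    intro φ
    have h1 : 0 ≤ 1 - Real.exp (-t) := by
      rw [sub_nonneg, Real.exp_le_one_iff]
      linarith
    rw [SJ_apply]
    calc _ ≤ ‖Real.exp (-t) • φ‖ + ‖(1 - Real.exp (-t)) • KK ν φ‖ := norm_add_le _ _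
      _ = Real.exp (-t) * ‖φ‖ + (1 - Real.exp (-t)) * ‖KK ν φ‖ := by
          rw [norm_smul, norm_smul, Real.norm_eq_abs, Real.norm_eq_abs, abs_of_pos (Real.exp_pos _),
            abs_of_nonneg h1]
      _ ≤ Real.exp (-t) * ‖φ‖ + (1 - Real.exp (-t)) * ‖φ‖ := by
          have h2 : ‖KK ν φ‖ ≤ ‖φ‖ :=
            ((KK ν).le_opNorm φ).trans (mul_le_of_le_one_left (norm_nonneg _) KK_norm)
          have := mul_le_mul_of_nonneg_left h2 h1
          linarith
      _ = 1 * ‖φ‖ := by ring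

lemma SJ_gen [IsProbabilityMeasure ν] : IsGenerator (SJ ν) (Jop ν) := by
  have key : ∀ φ : Lp ℝ 1 ν, Tendsto (fun t : ℝ => t⁻¹ • (SJ ν t φ - φ)) (𝓝[>] 0)
      (𝓝 (GG ν φ)) := by
    intro φ
    have h1 : HasDerivAt (fun t : ℝ => 1 - Real.exp (-t)) 1 0 := by
      have := (((hasDerivAt_id (0 : ℝ)).neg).exp).const_sub 1
      simpa using this
    have h2 := h1.hasDerivWithinAt (s := Ioi (0 : ℝ))
    rw [hasDerivWithinAt_iff_tendsto_slope' (by simp)] at h2
    have h3 := h2.smul_const (GG ν φ)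
    rw [one_smul] at h3
    refine h3.congr fun t => ?_
    rw [slope_def_field, SJ_apply]
    have h4 : Real.exp (-t) • φ + (1 - Real.exp (-t)) • KK ν φ - φ =
        (1 - Real.exp (-t)) • GG ν φ := by
      show _ = (1 - Real.exp (-t)) • (KK ν φ - φ)
      module
    rw [h4, smul_smul]
    congr 1
    simp
    ring
  intro φ ψ
  rw [mem_J]
  constructor
  · rintro rfl
    exact key φ
  · intro h
    exact tendsto_nhds_unique h (key φ)

/-! uniqueness -/

section uniq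

variable {S : ℝ → (Lp ℝ 1 ν →L[ℝ] Lp ℝ 1 ν)}

/-- continuous extension of orbits to negative times -/
noncomputable def orb (S : ℝ → (Lp ℝ 1 ν →L[ℝ] Lp ℝ 1 ν)) (φ : Lp ℝ 1 ν) (s : ℝ) : Lp ℝ 1 ν :=
  S (max s 0) φ

lemma orb_cont (hS : IsSubstochastic S) (φ : Lp ℝ 1 ν) : Continuous (orb S φ) := by
  have h1 := (hS.cont φ).comp_continuous (f := fun s : ℝ => max s 0) (by fun_prop)
    (fun s => mem_Ici.2 (le_max_right _ _))
  exact h1

lemma orb_of_nonneg {s : ℝ} (hs : 0 ≤ s) (φ : Lp ℝ 1 ν) : orb S φ s = S s φ := by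
  rw [orb, max_eq_left hs]

lemma right_deriv (hS : IsSubstochastic S) {φ ψ : Lp ℝ 1 ν}
    (h : Tendsto (fun t : ℝ => t⁻¹ • (S t φ - φ)) (𝓝[>] 0) (𝓝 ψ)) {s : ℝ} (hs : 0 ≤ s) :
    HasDerivWithinAt (orb S φ) (orb S ψ s) (Ioi s) s := by
  rw [hasDerivWithinAt_iff_tendsto_slope' (by simp)]
  have h1 : Tendsto (fun t : ℝ => S s (t⁻¹ • (S t φ - φ))) (𝓝[>] 0) (𝓝 (S s ψ)) :=
    ((S s).continuous.tendsto ψ).comp h
  have h2 : Tendsto (fun y : ℝ => y - s) (𝓝[>] s) (𝓝[>] 0) := by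
    rw [tendsto_nhdsWithin_iff]
    constructor
    · have h3 : Tendsto (fun y : ℝ => y - s) (𝓝 s) (𝓝 (s - s)) :=
        (continuous_id.sub continuous_const).tendsto s
      rw [sub_self] at h3
      exact h3.mono_left nhdsWithin_le_nhds
    · filter_upwards [self_mem_nhdsWithin] with y hy
      exact mem_Ioi.2 (sub_pos.2 (mem_Ioi.1 hy))
  have h3 := h1.comp h2
  rw [orb_of_nonneg hs]
  refine h3.congr' ?_
  filter_upwards [self_mem_nhdsWithin] with y hy
  have hy' : s < y := hy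
  rw [slope_def_module, orb_of_nonneg hs, orb_of_nonneg (hs.trans hy'.le), Function.comp_apply,
    map_smul, map_sub]
  congr 2
  have h4 := hS.add s (y - s) hs (sub_pos.2 hy').le
  rw [add_sub_cancel] at h4
  rw [h4]
  rfl

lemma volterra_dom (hS : IsSubstochastic S) {φ ψ : Lp ℝ 1 ν}
    (h : Tendsto (fun t : ℝ => t⁻¹ • (S t φ - φ)) (𝓝[>] 0) (𝓝 ψ)) {T : ℝ} (hT : 0 ≤ T) :
    S T φ - φ = ∫ s in (0 : ℝ)..T, orb S ψ s := by
  have h1 := intervalIntegral.integral_eq_sub_of_hasDeriv_right_of_le (f := orb S φ)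
    (f' := orb S ψ) hT (orb_cont hS φ).continuousOn
    (fun x hx => right_deriv hS h hx.1.le) ((orb_cont hS ψ).intervalIntegrable _ _)
  rw [h1, orb_of_nonneg hT, orb_of_nonneg le_rfl, hS.zero]
  rfl


lemma volterra [IsProbabilityMeasure ν] (hq : Measurable q) (hq1 : ∀ x, 1 ≤ q x)
    (hS : IsSubstochastic S) {J' : Lp ℝ 1 ν →ₗ.[ℝ] Lp ℝ 1 ν}
    (hJ : IsGenerator S J') (hle : Mop q ν + Pop q ν ≤ J') (φ : Lp ℝ 1 ν) {T : ℝ} (hT : 0 ≤ T) :
    S T φ - φ = ∫ s in (0 : ℝ)..T, orb S (GG ν φ) s := by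
  obtain ⟨h1, h2⟩ := trunc (ν := ν) hq hq1 φ
  set f : ℝ → Lp ℝ 1 ν := fun R => mulOp _ (meas_ind hq R) (bd_ind R) φ with hf
  have h3 : ∀ R, S T (f R) - f R = ∫ s in (0 : ℝ)..T, orb S (GG ν (f R)) s := by
    intro R
    apply volterra_dom hS _ hT
    rw [← hJ (f R) (GG ν (f R))]
    exact LinearPMap.le_graph_of_le hle ((mem_MP q _ _).2 ⟨h1 R, rfl⟩)
  have h4 : Tendsto (fun R => S T (f R) - f R) atTop (𝓝 (S T φ - φ)) :=
    (((S T).continuous.tendsto φ).comp h2).sub h2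
  have h5 : Tendsto (fun R => S T (f R) - f R) atTop
      (𝓝 (∫ s in (0 : ℝ)..T, orb S (GG ν φ) s)) := by
    rw [tendsto_iff_norm_sub_tendsto_zero]
    have h6 : Tendsto (fun R => ‖GG ν (f R) - GG ν φ‖ * |T - 0|) atTop (𝓝 0) := by
      have h7 := (tendsto_iff_norm_sub_tendsto_zero.1 (((GG ν).continuous.tendsto φ).comp h2))
      have h8 := h7.mul_const (|T - 0|)
      rw [zero_mul] at h8
      exact h8
    refine squeeze_zero (fun _ => norm_nonneg _) (fun R => ?_) h6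
    rw [h3, ← intervalIntegral.integral_sub ((orb_cont hS _).intervalIntegrable _ _)
      ((orb_cont hS _).intervalIntegrable _ _)]
    apply intervalIntegral.norm_integral_le_of_norm_le_const
    intro s _
    rw [orb, orb, ← map_sub]
    calc _ ≤ ‖S (max s 0)‖ * ‖GG ν (f R) - GG ν φ‖ := (S (max s 0)).le_opNorm _
      _ ≤ _ := mul_le_of_le_one_left (norm_nonneg _) (hS.contr _ (le_max_right _ _))
  exact tendsto_nhds_unique h4 h5

lemma uniq_kernel [IsProbabilityMeasure ν] (hq : Measurable q) (hq1 : ∀ x, 1 ≤ q x)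
    (hS : IsSubstochastic S) {J' : Lp ℝ 1 ν →ₗ.[ℝ] Lp ℝ 1 ν}
    (hJ : IsGenerator S J') (hle : Mop q ν + Pop q ν ≤ J') (φ : Lp ℝ 1 ν) (hφ : KK ν φ = 0)
    {T : ℝ} (hT : 0 ≤ T) :
    S T φ = Real.exp (-T) • φ := by
  have hG : GG ν φ = -φ := by
    show KK ν φ - φ = -φ
    rw [hφ, zero_sub]
  have h1 : ∀ T, 0 ≤ T → orb S φ T = φ - ∫ s in (0 : ℝ)..T, orb S φ s := by
    intro T hT
    have h2 := volterra hq hq1 hS hJ hle φ hT
    rw [hG] at h2
    have h3 : ∫ s in (0 : ℝ)..T, orb S (-φ) s = -∫ s in (0 : ℝ)..T, orb S φ s := by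
      rw [← intervalIntegral.integral_neg]
      congr 1
      ext1 s
      rw [orb, orb, map_neg]
    rw [h3] at h2
    rw [orb_of_nonneg hT, ← sub_eq_zero]
    rw [← sub_eq_zero] at h2
    rw [← h2]
    abel
  let g : ℝ → Lp ℝ 1 ν := fun T => Real.exp T • (φ - ∫ s in (0 : ℝ)..T, orb S φ s)
  have hg : ∀ T, 0 ≤ T → HasDerivAt g 0 T := by
    intro T hT
    have h2 : HasDerivAt (fun T => ∫ s in (0 : ℝ)..T, orb S φ s) (orb S φ T) T :=
      intervalIntegral.integral_hasDerivAt_right ((orb_cont hS φ).intervalIntegrable _ _)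
        (orb_cont hS φ).stronglyMeasurable.stronglyMeasurableAtFilter
        (orb_cont hS φ).continuousAt
    have h3 := (Real.hasDerivAt_exp T).smul (h2.const_sub φ)
    rw [← h1 T hT] at h3
    have h5 : Real.exp T • -orb S φ T + Real.exp T • orb S φ T = 0 := by
      rw [smul_neg]
      abel
    rw [h5] at h3
    exact h3
  have h2 := constant_of_has_deriv_right_zero (f := g) (a := 0) (b := T)
    (fun x hx => (hg x hx.1).continuousAt.continuousWithinAt)
    (fun x hx => (hg x hx.1).hasDerivWithinAt) T ⟨hT, le_rfl⟩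
  have h3 : g 0 = φ := by
    show Real.exp 0 • (φ - ∫ s in (0 : ℝ)..0, orb S φ s) = φ
    simp
  have h4 : g T = Real.exp T • S T φ := by
    show Real.exp T • (φ - ∫ s in (0 : ℝ)..T, orb S φ s) = _
    rw [← h1 T hT, orb_of_nonneg hT]
  rw [h3, h4] at h2
  have h6 : Real.exp (-T) • (Real.exp T • S T φ) = S T φ := by
    rw [smul_smul, ← Real.exp_add]
    simp
  rw [← h6, h2]

lemma KK_one [IsProbabilityMeasure ν] : KK ν (one1 ν) = one1 ν := by
  rw [KK_apply]
  have : ∫ x, one1 ν x ∂ν = 1 := by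
    rw [integral_congr_ae one1_ae]
    simp
  rw [this, one_smul]

lemma uniq_all [IsProbabilityMeasure ν] (hq : Measurable q) (hq1 : ∀ x, 1 ≤ q x)
    (hS : IsSubstochastic S) {J' : Lp ℝ 1 ν →ₗ.[ℝ] Lp ℝ 1 ν}
    (hJ : IsGenerator S J') (hle : Mop q ν + Pop q ν ≤ J') (φ : Lp ℝ 1 ν)
    {T : ℝ} (hT : 0 ≤ T) :
    SJ ν T φ = S T φ := by
  have h1 : S T (φ - KK ν φ) = Real.exp (-T) • (φ - KK ν φ) := by
    apply uniq_kernel hq hq1 hS hJ hle _ _ hT
    rw [map_sub, KK_KK, sub_self]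
  have h2 : S T (one1 ν) = one1 ν := by
    have h3 := volterra hq hq1 hS hJ hle (one1 ν) hT
    have h4 : GG ν (one1 ν) = 0 := by
      show KK ν (one1 ν) - one1 ν = 0
      rw [KK_one, sub_self]
    rw [h4] at h3
    have h5 : ∫ s in (0 : ℝ)..T, orb S (0 : Lp ℝ 1 ν) s = 0 := by
      have : (fun s => orb S (0 : Lp ℝ 1 ν) s) = fun _ => 0 := by
        ext1 s
        rw [orb, map_zero]
      rw [this]
      simp
    rw [h5] at h3
    exact sub_eq_zero.1 h3
  have h3 : S T (KK ν φ) = KK ν φ := by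
    rw [KK_apply, map_smul, h2]
  have h4 : S T φ = Real.exp (-T) • (φ - KK ν φ) + KK ν φ := by
    rw [← h1, ← h3, ← map_add, h3]
    simp
  rw [h4, SJ_apply]
  module

end uniq

lemma katoVoigt [IsProbabilityMeasure ν] (hq : Measurable q) (hq1 : ∀ x, 1 ≤ q x) :
    IsKatoVoigt (Mop q ν) (Pop q ν) (Jop ν) := by
  refine ⟨SJ ν, SJ_sub, SJ_gen, MP_le_J, ?_⟩
  intro S' J' hS hJ hle t ht φ _
  rw [uniq_all hq hq1 hS hJ hle φ ht]

/-! the limit operator -/

lemma meas_res (hq : Measurable q) (l : ℝ) : Measurable (fun x => (max l 0 + q x)⁻¹) :=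
  (measurable_const.add hq).inv

omit [MeasurableSpace Ξ] in
lemma bd_res (hq1 : ∀ x, 1 ≤ q x) (l : ℝ) (x : Ξ) : |(max l 0 + q x)⁻¹| ≤ 1 := by
  have h1 : 0 ≤ max l 0 := le_max_right _ _
  have h2 := hq1 x
  rw [abs_inv, abs_of_pos (by linarith)]
  exact inv_le_one_of_one_le₀ (by linarith)

lemma meas_res' (hq : Measurable q) (l : ℝ) :
    Measurable (fun x => (q x - 1) * (max l 0 + q x)⁻¹) :=
  (hq.sub measurable_const).mul (meas_res hq l)

omit [MeasurableSpace Ξ] in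
lemma bd_res' (hq1 : ∀ x, 1 ≤ q x) (l : ℝ) (x : Ξ) : |(q x - 1) * (max l 0 + q x)⁻¹| ≤ 1 := by
  have h1 : 0 ≤ max l 0 := le_max_right _ _
  have h2 := hq1 x
  rw [abs_mul, abs_inv, abs_of_pos (by linarith : 0 < max l 0 + q x), abs_of_nonneg (by linarith),
    mul_inv_le_iff₀ (by linarith)]
  linarith

noncomputable def LL (ν : Measure Ξ) [IsProbabilityMeasure ν] (hq : Measurable q)
    (hq1 : ∀ x, 1 ≤ q x) (l : ℝ) : Lp ℝ 1 ν →L[ℝ] Lp ℝ 1 ν :=
  (KK ν).comp (mulOp _ (meas_res hq l) (bd_res hq1 l)) + mulOp _ (meas_res' hq l) (bd_res' hq1 l)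

lemma limitOp [IsProbabilityMeasure ν] (hq : Measurable q) (hq1 : ∀ x, 1 ≤ q x) :
    IsLimitOperator (Mop q ν) (Pop q ν) (LL ν hq hq1 0) := by
  intro u
  refine ⟨fun l => LL ν hq hq1 l u, ?_, ?_⟩
  · intro l hl
    set φ : Lp ℝ 1 ν := mulOp _ (meas_res hq l) (bd_res hq1 l) u with hφ
    have hae : φ =ᵐ[ν] fun x => (l + q x)⁻¹ * u x := by
      filter_upwards [mulOp_ae _ (meas_res hq l) (bd_res hq1 l) u] with x hx
      rw [hφ, hx, max_eq_left hl.le]
    have hpos : ∀ x, 0 < l + q x := fun x => by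
      have := hq1 x
      linarith
    have hdom : φ ∈ dom ν q := by
      rw [mem_dom]
      have h1 : Integrable (fun x => (q x * (l + q x)⁻¹) * u x) ν := by
        refine (L1.integrable_coeFn u).bdd_mul (c := 1) ?_ ?_
        · exact (hq.mul (measurable_const.add hq).inv).aestronglyMeasurable
        · refine Eventually.of_forall fun x => ?_
          have h2 := hq1 x
          rw [Real.norm_eq_abs, abs_of_nonneg (mul_nonneg (by linarith) (inv_nonneg.2 (hpos x).le)),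
            mul_inv_le_iff₀ (hpos x)]
          linarith
      apply h1.congr
      filter_upwards [hae] with x hx
      rw [hx]
      ring
    refine ⟨φ, ?_, ?_⟩
    · rw [mem_M]
      refine ⟨hdom, ?_⟩
      apply Lp.ext
      filter_upwards [hae, mulQ_ae q ⟨φ, hdom⟩, Lp.coeFn_neg (mulQ q ⟨φ, hdom⟩),
        Lp.coeFn_sub (l • φ) u, Lp.coeFn_smul l φ] with x h1 h2 h3 h4 h5
      rw [h4, h3, Pi.sub_apply, Pi.neg_apply, h2, h5, Pi.smul_apply, h1, smul_eq_mul]
      have := (hpos x).ne'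
      field_simp
      ring
    · rw [mem_P]
      refine ⟨hdom, ?_⟩
      show KK ν φ + mulOp _ (meas_res' hq l) (bd_res' hq1 l) u = _
      rw [add_comm, ← add_sub_assoc, eq_sub_iff_add_eq, add_assoc, add_comm (KK ν φ) φ,
        ← add_assoc, add_left_inj]
      apply Lp.ext
      filter_upwards [hae, mulQ_ae q ⟨φ, hdom⟩, mulOp_ae _ (meas_res' hq l) (bd_res' hq1 l) u,
        Lp.coeFn_add (mulOp _ (meas_res' hq l) (bd_res' hq1 l) u) φ] with x h1 h2 h3 h4
      rw [h4, Pi.add_apply, h3, h2, h1, max_eq_left hl.le]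
      ring
  · have h1 : Tendsto (fun l => mulOp _ (meas_res hq l) (bd_res hq1 l) u) (𝓝[>] 0)
        (𝓝 (mulOp _ (meas_res hq 0) (bd_res hq1 0) u)) := by
      apply tendsto_L1 (f := fun l x => (max l 0 + q x)⁻¹ * u x)
        (g := fun x => (max 0 0 + q x)⁻¹ * u x) (bound := fun x => 2 * ‖u x‖)
      · exact Eventually.of_forall fun R => mulOp_ae _ _ _ u
      · exact mulOp_ae _ _ _ u
      · exact (L1.integrable_coeFn u).norm.const_mul 2
      · refine Eventually.of_forall fun R => Eventually.of_forall fun x => ?_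
        rw [← sub_mul, norm_mul]
        apply mul_le_mul_of_nonneg_right _ (norm_nonneg _)
        have h1 := bd_res hq1 R x
        have h2 := bd_res hq1 0 x
        rw [Real.norm_eq_abs]
        have h3 := abs_sub (max R 0 + q x)⁻¹ (max 0 0 + q x)⁻¹
        linarith
      · refine Eventually.of_forall fun x => ?_
        apply Tendsto.mul_const
        have h2 := hq1 x
        have h3 : Tendsto (fun l : ℝ => max l 0 + q x) (𝓝[>] 0) (𝓝 (max 0 0 + q x)) :=
          ((by fun_prop : Continuous fun l : ℝ => max l 0 + q x).tendsto 0).mono_left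
            nhdsWithin_le_nhds
        exact h3.inv₀ (by rw [max_self]; linarith)
    have h2 : Tendsto (fun l => mulOp _ (meas_res' hq l) (bd_res' hq1 l) u) (𝓝[>] 0)
        (𝓝 (mulOp _ (meas_res' hq 0) (bd_res' hq1 0) u)) := by
      apply tendsto_L1 (f := fun l x => (q x - 1) * (max l 0 + q x)⁻¹ * u x)
        (g := fun x => (q x - 1) * (max 0 0 + q x)⁻¹ * u x) (bound := fun x => 2 * ‖u x‖)
      · exact Eventually.of_forall fun R => mulOp_ae _ _ _ u
      · exact mulOp_ae _ _ _ u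
      · exact (L1.integrable_coeFn u).norm.const_mul 2
      · refine Eventually.of_forall fun R => Eventually.of_forall fun x => ?_
        rw [← sub_mul, norm_mul]
        apply mul_le_mul_of_nonneg_right _ (norm_nonneg _)
        have h1 := bd_res' hq1 R x
        have h2 := bd_res' hq1 0 x
        rw [Real.norm_eq_abs]
        have h3 := abs_sub ((q x - 1) * (max R 0 + q x)⁻¹) ((q x - 1) * (max 0 0 + q x)⁻¹)
        linarith
      · refine Eventually.of_forall fun x => ?_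
        apply Tendsto.mul_const
        apply Tendsto.const_mul
        have h2 := hq1 x
        have h3 : Tendsto (fun l : ℝ => max l 0 + q x) (𝓝[>] 0) (𝓝 (max 0 0 + q x)) :=
          ((by fun_prop : Continuous fun l : ℝ => max l 0 + q x).tendsto 0).mono_left
            nhdsWithin_le_nhds
        exact h3.inv₀ (by rw [max_self]; linarith)
    exact (((KK ν).continuous.tendsto _).comp h1).add h2

lemma no_fixed [IsProbabilityMeasure ν] (hq : Measurable q) (hq1 : ∀ x, 1 ≤ q x)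
    (hni : ¬ Integrable q ν) (u : Lp ℝ 1 ν) (hu : LL ν hq hq1 0 u = u) : u = 0 := by
  have h0 : KK ν (mulOp _ (meas_res hq 0) (bd_res hq1 0) u) +
      mulOp _ (meas_res' hq 0) (bd_res' hq1 0) u = u := hu
  set c : ℝ := ∫ x, (mulOp _ (meas_res hq 0) (bd_res hq1 0) u) x ∂ν with hc
  have h1 : u =ᵐ[ν] fun x => c * q x := by
    have h2 : ∀ᵐ x ∂ν, (KK ν (mulOp _ (meas_res hq 0) (bd_res hq1 0) u) +
      mulOp _ (meas_res' hq 0) (bd_res' hq1 0) u : Lp ℝ 1 ν) x = u x := by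
      rw [h0]
      exact Eventually.of_forall fun _ => rfl
    filter_upwards [h2, KK_ae (mulOp _ (meas_res hq 0) (bd_res hq1 0) u),
      mulOp_ae _ (meas_res' hq 0) (bd_res' hq1 0) u,
      Lp.coeFn_add (KK ν (mulOp _ (meas_res hq 0) (bd_res hq1 0) u))
        (mulOp _ (meas_res' hq 0) (bd_res' hq1 0) u)] with x h2 h3 h4 h5
    rw [h5, Pi.add_apply, h3, h4, ← hc, max_self, zero_add] at h2
    have h6 : q x ≠ 0 := by
      have := hq1 x
      positivity
    field_simp at h2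
    linarith
  by_cases hc0 : c = 0
  · apply Lp.ext
    filter_upwards [h1, Lp.coeFn_zero ℝ 1 ν] with x h2 h3
    rw [h2, h3, hc0]
    simp
  · exfalso
    apply hni
    have h2 : Integrable (fun x => c⁻¹ * (c * q x)) ν :=
      (((L1.integrable_coeFn u).congr h1).const_mul c⁻¹)
    apply h2.congr
    refine Eventually.of_forall fun x => ?_
    show c⁻¹ * (c * q x) = q x
    rw [inv_mul_cancel_left₀ hc0]

end aux


/-- The counterexample, on `L¹(ν)` with its almost everywhere order. -/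
theorem result : ∃ (Ξ : Type) (_ : MeasurableSpace Ξ) (ν : Measure Ξ),
    NegatedForm (Lp ℝ 1 ν) (fun φ => ∫ x, φ x ∂ν) := by
  let ν : Measure ℝ := volume.restrict (Ioc 0 1)
  haveI : IsProbabilityMeasure ν := ⟨by simp [ν]⟩
  let q : ℝ → ℝ := fun x => max 1 x⁻¹
  have hq : Measurable q := measurable_const.max measurable_inv
  have hq1 : ∀ x, 1 ≤ q x := fun x => le_max_left _ _
  have hni : ¬ Integrable q ν := by
    intro h
    have h1 : IntegrableOn (fun x : ℝ => x⁻¹) (Ioc 0 1) volume := by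
      apply Integrable.congr h
      filter_upwards [ae_restrict_mem measurableSet_Ioc] with x hx
      exact max_eq_right (one_le_inv_iff₀.2 ⟨hx.1, hx.2⟩)
    have h2 : IntervalIntegrable (fun x : ℝ => x⁻¹) volume 0 1 := by
      rw [intervalIntegrable_iff_integrableOn_Ioc_of_le zero_le_one]
      exact h1
    rw [intervalIntegrable_inv_iff] at h2
    rcases h2 with h2 | h2
    · exact zero_ne_one h2
    · apply h2
      rw [uIcc_of_le zero_le_one]
      exact ⟨le_rfl, zero_le_one⟩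
  have hv : one1 ν ∉ dom ν q := by
    intro h
    rw [mem_dom] at h
    apply hni
    apply h.congr
    filter_upwards [one1_ae (ν := ν)] with x hx
    rw [hx, mul_one]
  refine ⟨ℝ, inferInstance, ν, Mop q ν, Pop q ν, Jop ν, LL ν hq hq1 0, one1 ν,
    ⟨⟨SM hq hq1, SM_sub hq hq1, SM_gen hq hq1⟩, le_refl (dom ν q), ?_, ?_⟩, katoVoigt hq hq1,
    ⟨MP_closable, (MP_closure hq hq1).symm, ?_⟩, ⟨?_, ?_, ?_⟩, hv, limitOp hq hq1, ?_⟩
  · intro φ ψ h hφ'
    rw [mem_P] at h
    obtain ⟨hφd, rfl⟩ := h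
    rw [← add_sub_assoc, add_comm, add_sub_assoc]
    refine add_nonneg (KK_nonneg φ hφ') ?_
    rw [← Lp.coeFn_nonneg] at hφ' ⊢
    filter_upwards [hφ', mulQ_ae q ⟨φ, hφd⟩, Lp.coeFn_sub (mulQ q ⟨φ, hφd⟩) φ] with x h1 h2 h3
    rw [h3, Pi.sub_apply, h2]
    show (0 : ℝ) ≤ q x * φ x - φ x
    have h4 := hq1 x
    have h5 : (0 : ℝ) ≤ φ x := h1
    nlinarith
  · intro φ ψ h1 _
    rw [mem_MP] at h1
    rw [h1.2]
    have h2 : ∫ x, (GG ν φ : Lp ℝ 1 ν) x ∂ν = 0 := by
      have h3 : (GG ν φ : Lp ℝ 1 ν) =ᵐ[ν] fun x => (∫ y, φ y ∂ν) - φ x := by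
        filter_upwards [Lp.coeFn_sub (KK ν φ) φ, KK_ae φ] with x h4 h5
        show (KK ν φ - φ : Lp ℝ 1 ν) x = _
        rw [h4, Pi.sub_apply, h5]
      rw [integral_congr_ae h3, integral_sub (integrable_const _) (L1.integrable_coeFn _)]
      simp
    rw [h2]
  · intro h
    apply hv
    have : one1 ν ∈ (Jop ν).domain := trivial
    rw [h] at this
    exact this
  · rw [← Lp.coeFn_nonneg]
    filter_upwards [one1_ae (ν := ν)] with x hx
    rw [hx]
    exact zero_le_one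
  · intro h
    apply hv
    rw [h]
    exact Submodule.zero_mem _
  · rw [mem_J]
    show 0 = KK ν (one1 ν) - one1 ν
    rw [KK_one, sub_self]
  · intro u hu h
    exact hu (no_fixed hq hq1 hni u h)

end Pool.Agent.Results.MP_e4fc02_an.NoEigenvector
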